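import Mathlib

/-!
# Almost critical points in small balls, separation, choice of the number of test functions
-/

set_option autoImplicit false

open Set Filter Topology

noncomputable section

namespace Pool.Agent.Helper26K1.EM

/-- A continuous function with small oscillation on a ball has an almost critical point in it, in
the sense of lower bounds along all rays. -/
theorem almost_critical {m : ℕ} (G : EuclideanSpace ℝ (Fin m) → ℝ) (hG : Continuous G) (L r κ : ℝ)
    (hr : 0 < r) (hκ : 0 < κ)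
    (hosc : ∀ c, ‖c‖ ≤ r → |G c - L| ≤ κ * r ^ 2 / 4) :
    ∃ c : EuclideanSpace ℝ (Fin m), ‖c‖ < r ∧ ∀ a : EuclideanSpace ℝ (Fin m),
      ∃ τ₀ : ℝ, 0 < τ₀ ∧ ∀ τ : ℝ, 0 < τ → τ < τ₀ →
        G c - τ * (2 * κ * r * ‖a‖) - τ ^ 2 * (κ * ‖a‖ ^ 2) ≤ G (c + τ • a) := by
  have hcomp : IsCompact (Metric.closedBall (0 : EuclideanSpace ℝ (Fin m)) r) :=
    isCompact_closedBall _ _
  have hne : (Metric.closedBall (0 : EuclideanSpace ℝ (Fin m)) r).Nonempty :=
    ⟨0, Metric.mem_closedBall_self hr.le⟩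
  have hcont : ContinuousOn (fun c => G c + κ * ‖c‖ ^ 2)
      (Metric.closedBall (0 : EuclideanSpace ℝ (Fin m)) r) := by
    apply Continuous.continuousOn
    exact hG.add (continuous_const.mul (continuous_norm.pow 2))
  obtain ⟨c, hc, hmin⟩ := hcomp.exists_isMinOn hne hcont
  have hcr : ‖c‖ ≤ r := by simpa using hc
  have h0 : G c + κ * ‖c‖ ^ 2 ≤ G 0 := by
    have := hmin (Metric.mem_closedBall_self hr.le)
    simpa using this
  have h1 := abs_le.1 (hosc c hcr)
  have h2 := abs_le.1 (hosc 0 (by simpa using hr.le))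
  have hlt : ‖c‖ < r := by
    by_contra hge
    push Not at hge
    have h3 : r ^ 2 ≤ ‖c‖ ^ 2 := pow_le_pow_left₀ hr.le hge 2
    have h4 : 0 < κ * r ^ 2 := by positivity
    have h5 : κ * r ^ 2 ≤ κ * ‖c‖ ^ 2 := mul_le_mul_of_nonneg_left h3 hκ.le
    linarith [h1.1, h2.2]
  refine ⟨c, hlt, fun a => ?_⟩
  refine ⟨(r - ‖c‖) / (‖a‖ + 1), div_pos (by linarith) (by positivity), fun τ hτ0 hτ => ?_⟩
  have h3 : τ * ‖a‖ ≤ r - ‖c‖ := by
    rw [lt_div_iff₀ (by positivity)] at hτ
    nlinarith [norm_nonneg a]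
  have h4 : ‖c + τ • a‖ ≤ r := by
    refine (norm_add_le _ _).trans ?_
    rw [norm_smul, Real.norm_eq_abs, abs_of_pos hτ0]
    linarith
  have h5 : G c + κ * ‖c‖ ^ 2 ≤ G (c + τ • a) + κ * ‖c + τ • a‖ ^ 2 :=
    hmin (by simpa using h4)
  have h6 : ‖c + τ • a‖ ^ 2 = ‖c‖ ^ 2 + 2 * (τ * inner ℝ c a) + τ ^ 2 * ‖a‖ ^ 2 := by
    rw [norm_add_sq_real, norm_smul, real_inner_smul_right, Real.norm_eq_abs, abs_of_pos hτ0]
    ring
  have h7 : inner ℝ c a ≤ r * ‖a‖ :=
    (real_inner_le_norm c a).trans (mul_le_mul_of_nonneg_right hcr (norm_nonneg a))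
  rw [h6] at h5
  have h8 : κ * (τ * inner ℝ c a) ≤ κ * (τ * (r * ‖a‖)) :=
    mul_le_mul_of_nonneg_left (mul_le_mul_of_nonneg_left h7 hτ0.le) hκ.le
  nlinarith

/-- Separation of a point from a convex hull. -/
theorem separate {m : ℕ} (S : Set (EuclideanSpace ℝ (Fin m))) (hS : S.Nonempty)
    (p : EuclideanSpace ℝ (Fin m)) (δ : ℝ) (hδ : 0 < δ)
    (h : ∀ q ∈ convexHull ℝ S, δ < ‖q - p‖) :
    ∃ a : EuclideanSpace ℝ (Fin m), 0 < ‖a‖ ∧ ∀ q ∈ S, inner ℝ a p + δ * ‖a‖ ≤ inner ℝ a q := by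
  set C : Set (EuclideanSpace ℝ (Fin m)) := closure (convexHull ℝ S) with hC
  have hCc : Convex ℝ C := (convex_convexHull ℝ S).closure
  have hCn : C.Nonempty := (hS.mono (subset_convexHull ℝ S)).mono subset_closure
  obtain ⟨p0, hp0, hp0'⟩ := exists_norm_eq_iInf_of_complete_convex hCn
    isClosed_closure.isComplete hCc p
  have hobt := (norm_eq_iInf_iff_real_inner_le_zero hCc hp0).1 hp0'
  have hdist : ∀ q ∈ C, δ ≤ ‖q - p‖ := by
    intro q hq
    have hcl : IsClosed {q : EuclideanSpace ℝ (Fin m) | δ ≤ ‖q - p‖} :=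
      isClosed_le continuous_const (continuous_id.sub continuous_const).norm
    exact closure_minimal (s := convexHull ℝ S) (fun q hq => (h q hq).le) hcl hq
  refine ⟨p0 - p, lt_of_lt_of_le hδ (hdist p0 hp0), fun q hq => ?_⟩
  have hq' : q ∈ C := subset_closure (subset_convexHull ℝ S hq)
  have h1 := hobt q hq'
  have h2 : inner ℝ (p0 - p) (q - p0) = - inner ℝ (p - p0) (q - p0) := by
    rw [← inner_neg_left, neg_sub]
  have h3 : inner ℝ (p0 - p) q = inner ℝ (p0 - p) p + inner ℝ (p0 - p) (p0 - p)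
      + inner ℝ (p0 - p) (q - p0) := by
    rw [← inner_add_right, ← inner_add_right]
    congr 1
    abel
  rw [h3, real_inner_self_eq_norm_sq]
  have h4 := hdist p0 hp0
  have h5 : δ * ‖p0 - p‖ ≤ ‖p0 - p‖ ^ 2 := by
    rw [sq]
    exact mul_le_mul_of_nonneg_right h4 (norm_nonneg _)
  linarith

/-- Caratheodory's theorem with a fixed number of points. -/
theorem caratheodory {m : ℕ} (S : Set (EuclideanSpace ℝ (Fin m))) (q : EuclideanSpace ℝ (Fin m))
    (hq : q ∈ convexHull ℝ S) :
    ∃ (z : Fin (m + 1) → EuclideanSpace ℝ (Fin m)) (w : Fin (m + 1) → ℝ), (∀ i, z i ∈ S) ∧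
      (∀ i, 0 ≤ w i) ∧ ∑ i, w i = 1 ∧ ∑ i, w i • z i = q := by
  classical
  obtain ⟨ι, _, z, w, hz, haff, hw, hw1, hwz⟩ := eq_pos_convex_span_of_mem_convexHull hq
  have hcard : Fintype.card ι ≤ m + 1 := by
    have := haff.card_le_finrank_succ
    refine this.trans ?_
    have h2 := Submodule.finrank_le (vectorSpan ℝ (Set.range z))
    rw [finrank_euclideanSpace_fin] at h2
    omega
  have hne : Nonempty ι := by
    by_contra hcon
    rw [not_nonempty_iff] at hcon
    simp at hw1
  obtain ⟨i0⟩ := hne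
  obtain ⟨g⟩ : Nonempty (ι ↪ Fin (m + 1)) :=
    Function.Embedding.nonempty_of_card_le (by simpa using hcard)
  refine ⟨fun k => if h : ∃ i, g i = k then z h.choose else z i0,
    fun k => if h : ∃ i, g i = k then w h.choose else 0, ?_, ?_, ?_, ?_⟩
  · intro k
    dsimp only
    split_ifs with h
    · exact hz ⟨_, rfl⟩
    · exact hz ⟨_, rfl⟩
  · intro k
    dsimp only
    split_ifs with h
    · exact (hw _).le
    · exact le_rfl
  · have key : ∀ i, (if h : ∃ i', g i' = g i then w h.choose else 0) = w i := by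
      intro i
      have hex : ∃ i', g i' = g i := ⟨i, rfl⟩
      rw [dif_pos hex, g.injective hex.choose_spec]
    rw [← hw1]
    symm
    calc ∑ i, w i = ∑ i, (if h : ∃ i', g i' = g i then w h.choose else 0) :=
          Finset.sum_congr rfl fun i _ => (key i).symm
      _ = ∑ k ∈ Finset.univ.map g, (if h : ∃ i', g i' = k then w h.choose else 0) := by
          rw [Finset.sum_map]
      _ = _ := by
          apply Finset.sum_subset (Finset.subset_univ _)
          intro k _ hk
          rw [dif_neg]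
          rintro ⟨i, hi⟩
          exact hk (Finset.mem_map.2 ⟨i, Finset.mem_univ _, hi⟩)
  · have key : ∀ i, ((if h : ∃ i', g i' = g i then w h.choose else 0) •
        (if h : ∃ i', g i' = g i then z h.choose else z i0)) = w i • z i := by
      intro i
      have hex : ∃ i', g i' = g i := ⟨i, rfl⟩
      rw [dif_pos hex, dif_pos hex, g.injective hex.choose_spec]
    rw [← hwz]
    symm
    calc ∑ i, w i • z i = ∑ i, ((if h : ∃ i', g i' = g i then w h.choose else 0) •
        (if h : ∃ i', g i' = g i then z h.choose else z i0)) :=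
          Finset.sum_congr rfl fun i _ => (key i).symm
      _ = ∑ k ∈ Finset.univ.map g, ((if h : ∃ i', g i' = k then w h.choose else 0) •
        (if h : ∃ i', g i' = k then z h.choose else z i0)) := by
          rw [Finset.sum_map]
      _ = _ := by
          apply Finset.sum_subset (Finset.subset_univ _)
          intro k _ hk
          rw [dif_neg, zero_smul]
          rintro ⟨i, hi⟩
          exact hk (Finset.mem_map.2 ⟨i, Finset.mem_univ _, hi⟩)

/-- choice of a slowly growing parameter -/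
theorem slow_choice (P : ℕ → ℕ → Prop) (h0 : ∀ j, P 0 j) (h : ∀ n, ∀ᶠ j in atTop, P n j)
    (N : ℕ → ℕ) (hN : Tendsto N atTop atTop) :
    ∃ n : ℕ → ℕ, Tendsto n atTop atTop ∧ (∀ j, n j ≤ N j) ∧ ∀ j, P (n j) j := by
  classical
  refine ⟨fun j => Nat.findGreatest (fun n => P n j) (N j), ?_, fun j => Nat.findGreatest_le _,
    fun j => Nat.findGreatest_spec (P := fun n => P n j) (Nat.zero_le _) (h0 j)⟩
  rw [tendsto_atTop]
  intro k
  filter_upwards [h k, hN.eventually_ge_atTop k] with j hj hk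
  exact Nat.le_findGreatest hk hj

end Pool.Agent.Helper26K1.EM
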