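import Pool.Agent.Y264.QR.Stm
import Pool.Agent.Y378.QR.Abs
import Pool.Agent.Y689.QR.CM
import Pool.Agent.Helper26K1.EM.Real

/-!
# Eigenspaces of almost critical conformal factors, abstract form
-/

set_option autoImplicit false

open Set Filter Topology MeasureTheory
open scoped Real
open Pool.Agent.Y262.QE Pool.Agent.Y264.QR Pool.Agent.Y378.QR

noncomputable section

namespace Pool.Agent.Helper26K1.EM

variable {M : Type} [MetricSpace M] [CompactSpace M] [MeasurableSpace M] [BorelSpace M]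
  {μ : Measure M} [IsFiniteMeasure μ] {H : Type} [NormedAddCommGroup H] [InnerProductSpace ℝ H]
  {i : H →L[ℝ] Lp ℝ 2 μ}

/-- the area -/
def Ar (μ : Measure M) (φ : C(M, ℝ)) : ℝ := ∫ x, Real.exp (φ x) ∂μ

theorem absle (h : C(M, ℝ)) (x : M) : |h x| ≤ ‖h‖ := by
  rw [← Real.norm_eq_abs]
  exact h.norm_coe_le_norm x

theorem Ar_le (φ ψ : C(M, ℝ)) : Ar μ φ ≤ Real.exp ‖φ - ψ‖ * Ar μ ψ := by
  unfold Ar
  rw [← integral_const_mul]
  refine integral_mono (eint φ) ((eint ψ).const_mul _) fun x => ?_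
  simp only
  rw [← Real.exp_add]
  apply Real.exp_le_exp.2
  have := (abs_le.1 (absle (φ - ψ) x)).2
  rw [ContinuousMap.sub_apply] at this
  linarith

theorem avg_abs_le (hA : ∀ φ : C(M, ℝ), 0 < Ar μ φ) (f φ : C(M, ℝ)) : |avg μ f φ| ≤ ‖f‖ := by
  unfold avg
  have h0 : 0 < ∫ x, Real.exp (φ x) ∂μ := hA φ
  rw [abs_div, abs_of_pos h0, div_le_iff₀ h0, ← integral_const_mul]
  refine (abs_integral_le_integral_abs).trans
    (integral_mono (cint f (eint φ)).abs ((eint φ).const_mul _) fun x => ?_)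
  simp only
  rw [abs_mul, abs_of_pos (Real.exp_pos (φ x))]
  exact mul_le_mul_of_nonneg_right (absle f x) (Real.exp_pos _).le

theorem log_area (hA : ∀ φ : C(M, ℝ), 0 < Ar μ φ) (φ h : C(M, ℝ)) (τ : ℝ) (hτ0 : 0 ≤ τ)
    (hτ : τ * ‖h‖ ≤ 1) :
    Real.log (Ar μ (φ + τ • h)) ≤ Real.log (Ar μ φ) + τ * avg μ h φ + τ ^ 2 * ‖h‖ ^ 2 := by
  have h1 : Ar μ (φ + τ • h) ≤ Ar μ φ * (1 + τ * avg μ h φ + τ ^ 2 * ‖h‖ ^ 2) := by
    have e1 : Ar μ φ * (1 + τ * avg μ h φ + τ ^ 2 * ‖h‖ ^ 2) =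
        ∫ x, (Real.exp (φ x) + τ * (h x * Real.exp (φ x)) + τ ^ 2 * ‖h‖ ^ 2 * Real.exp (φ x)) ∂μ := by
      have i2 : Integrable (fun x => τ * (h x * Real.exp (φ x))) μ :=
        (cint h (eint φ)).const_mul _
      have i1 : Integrable (fun x => Real.exp (φ x) + τ * (h x * Real.exp (φ x))) μ :=
        (eint φ).add i2
      have i3 : Integrable (fun x => τ ^ 2 * ‖h‖ ^ 2 * Real.exp (φ x)) μ := (eint φ).const_mul _
      rw [integral_add i1 i3, integral_add (eint φ) i2, integral_const_mul, integral_const_mul]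
      have h0 := (hA φ).ne'
      unfold Ar at h0 ⊢
      unfold avg
      field_simp
    rw [e1]
    unfold Ar
    refine integral_mono (eint _) (((eint φ).add ((cint h (eint φ)).const_mul _)).add
      ((eint φ).const_mul _)) fun x => ?_
    simp only [ContinuousMap.add_apply, ContinuousMap.smul_apply, smul_eq_mul]
    rw [Real.exp_add]
    have h2 : |τ * h x| ≤ τ * ‖h‖ := by
      rw [abs_mul, abs_of_nonneg hτ0]
      exact mul_le_mul_of_nonneg_left (absle h x) hτ0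
    have h3 := (abs_le.1 (Real.abs_exp_sub_one_sub_id_le (h2.trans hτ))).2
    have h4 : (τ * h x) ^ 2 ≤ (τ * ‖h‖) ^ 2 := by
      rw [← sq_abs]
      exact pow_le_pow_left₀ (abs_nonneg _) h2 2
    have h5 : Real.exp (τ * h x) ≤ 1 + τ * h x + τ ^ 2 * ‖h‖ ^ 2 := by
      rw [← mul_pow]; linarith
    calc Real.exp (φ x) * Real.exp (τ * h x)
        ≤ Real.exp (φ x) * (1 + τ * h x + τ ^ 2 * ‖h‖ ^ 2) :=
          mul_le_mul_of_nonneg_left h5 (Real.exp_pos _).le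
      _ = _ := by ring
  have h2 : 0 < 1 + τ * avg μ h φ + τ ^ 2 * ‖h‖ ^ 2 := by
    have := (hA (φ + τ • h)).trans_le h1
    exact pos_of_mul_pos_right this (hA φ).le
  have h3 := Real.log_le_log (hA _) h1
  rw [Real.log_mul (hA φ).ne' h2.ne'] at h3
  have h4 := Real.log_le_sub_one_of_pos h2
  linarith

section forms

variable {a : H →L[ℝ] H →L[ℝ] ℝ} {b : C(M, ℝ) → H →L[ℝ] H →L[ℝ] ℝ}

/-- the facts about the forms which are used -/
structure Pk (μ : Measure M) (i : H →L[ℝ] Lp ℝ 2 μ) (a : H →L[ℝ] H →L[ℝ] ℝ)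
    (b : C(M, ℝ) → H →L[ℝ] H →L[ℝ] ℝ) : Prop where
  fm : ∀ φ, Fm a (b φ)
  isB : IsB μ i b
  ar : ∀ φ : C(M, ℝ), 0 < Ar μ φ
  cmp : ∀ (φ ψ : C(M, ℝ)) (v : H), b φ v v ≤ Real.exp ‖φ - ψ‖ * b ψ v v
  k : ∀ h : C(M, ℝ), ∃ k : C(M, ℝ) → H →L[ℝ] H →L[ℝ] ℝ, (∀ φ u v, k φ u v = k φ v u) ∧
        (∀ φ v, k φ v v = kap μ i h φ v ∧ |k φ v v| ≤ ‖h‖ * b φ v v) ∧
        ∀ φ v (τ : ℝ), b φ v v + τ * k φ v v ≤ b (φ + τ • h) v v
  wl : Wl μ a b

theorem b_eq (P : Pk μ i a b) (φ : C(M, ℝ)) (v : H) :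
    b φ v v = ∫ x, Real.exp (φ x) * (i v x) ^ 2 ∂μ := by
  rw [P.isB]
  refine integral_congr_ae (Eventually.of_forall fun x => ?_)
  simp only
  ring

theorem kap_const (P : Pk μ i a b) (C : ℝ) (φ : C(M, ℝ)) (v : H) :
    kap μ i (ContinuousMap.const M C) φ v = C * b φ v v := by
  rw [b_eq P, ← integral_const_mul]
  rfl

theorem kap_nonneg (h φ : C(M, ℝ)) (v : H) (hh : ∀ x, 0 ≤ h x) : 0 ≤ kap μ i h φ v := by
  unfold kap
  refine integral_nonneg fun x => ?_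
  have := hh x
  positivity

/-- the one-sided derivative of the logarithm of an eigenvalue in terms of the whole eigenspace -/
theorem log_der (hLip : StLip) (hMM : StMM) (hDer : StDer) (P : Pk μ i a b) (j : ℕ)
    (hj : ∀ φ, 0 < Ev a (b φ) j) (φ h : C(M, ℝ)) (e : ℕ → H) (E : ℕ → ℝ) (hE : Eg a (b φ) e E)
    (c c' : ℝ) (hc : c' < c) (hc0 : -‖h‖ ≤ c')
    (hkap : ∀ v, (∀ w, a v w = E j * b φ v w) → c * b φ v v ≤ kap μ i h φ v) :
    ∃ δ : ℝ, 0 < δ ∧ ∀ τ : ℝ, 0 < τ → τ < δ →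
      Real.log (Ev a (b (φ + τ • h)) j) ≤ Real.log (Ev a (b φ) j) - τ * c' := by
  obtain ⟨-, -, hL, -, -⟩ := hLip M μ H a b P.fm P.cmp
  set h' : C(M, ℝ) := h + ContinuousMap.const M ‖h‖ with hh'
  obtain ⟨k, k1, k2, k3⟩ := P.k h'
  have hkh : ∀ v, k φ v v = kap μ i h φ v + ‖h‖ * b φ v v := by
    intro v
    rw [(k2 φ v).1, hh', kap_add, kap_const P]
  have h'0 : ∀ x, 0 ≤ h' x := by
    intro x
    have := (abs_le.1 (absle h x)).1
    show 0 ≤ h x + ‖h‖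
    linarith
  obtain ⟨δ, hδ, hd⟩ := hDer H a (b φ) (P.fm φ) e E hE (k φ) ‖h'‖ (k1 φ)
    (fun v => ⟨by rw [(k2 φ v).1]; exact kap_nonneg h' φ v h'0,
      (le_abs_self _).trans (k2 φ v).2⟩) j (c + ‖h‖) (c' + ‖h‖) (by linarith) (by linarith)
    (fun v hv => by rw [hkh v, add_mul]; linarith [hkap v hv])
  refine ⟨δ, hδ, fun τ hτ0 hτ => ?_⟩
  have h1 := hd τ hτ0 hτ (b (φ + τ • h')) (fun v => k3 φ v τ)
  have h2 := hL (φ + τ • h) (φ + τ • h') j
  have h3 : ‖(φ + τ • h) - (φ + τ • h')‖ ≤ τ * ‖h‖ := by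
    have e1 : (φ + τ • h) - (φ + τ • h') = -(τ • ContinuousMap.const M ‖h‖) := by
      rw [hh', smul_add]
      abel
    rw [e1, norm_neg, norm_smul, Real.norm_eq_abs, abs_of_pos hτ0]
    refine mul_le_mul_of_nonneg_left ?_ hτ0.le
    refine (ContinuousMap.norm_le _ (norm_nonneg _)).2 fun x => ?_
    show ‖‖h‖‖ ≤ ‖h‖
    rw [norm_norm]
  have hE0 : E j = Ev a (b φ) j := (hMM H a (b φ) (P.fm φ) e E hE j).symm
  have hEpos : 0 < E j := by rw [hE0]; exact hj φ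
  have h4 : Ev a (b (φ + τ • h)) j ≤ Real.exp (τ * ‖h‖) * (E j * (1 - (c' + ‖h‖) * τ)) := by
    refine h2.trans (mul_le_mul (Real.exp_le_exp.2 h3) h1 (hj _).le (Real.exp_pos _).le)
  have h5 : 0 < E j * (1 - (c' + ‖h‖) * τ) :=
    pos_of_mul_pos_right ((hj _).trans_le h4) (Real.exp_pos _).le
  have h6 : 0 < 1 - (c' + ‖h‖) * τ := pos_of_mul_pos_right h5 hEpos.le
  have h7 := Real.log_le_log (hj _) h4
  rw [Real.log_mul (Real.exp_pos _).ne' h5.ne', Real.log_exp, Real.log_mul hEpos.ne' h6.ne',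
    hE0] at h7
  have h8 := Real.log_le_sub_one_of_pos h6
  linarith

/-- the functional -/
def Gf (μ : Measure M) (a : H →L[ℝ] H →L[ℝ] ℝ) (b : C(M, ℝ) → H →L[ℝ] H →L[ℝ] ℝ) (j : ℕ)
    (φ : C(M, ℝ)) : ℝ :=
  Real.log (Ev a (b φ) j) + Real.log (Ar μ φ)

theorem log_lip {x y d : ℝ} (hx : 0 < x) (hy : 0 < y) (h : x ≤ Real.exp d * y) :
    Real.log x ≤ Real.log y + d := by
  have h1 := Real.log_le_log hx h
  rw [Real.log_mul (Real.exp_pos _).ne' hy.ne', Real.log_exp] at h1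
  linarith

theorem Gf_lip (hLip : StLip) (P : Pk μ i a b) (j : ℕ) (hj : ∀ φ, 0 < Ev a (b φ) j)
    (φ ψ : C(M, ℝ)) : Gf μ a b j φ ≤ Gf μ a b j ψ + 2 * ‖φ - ψ‖ := by
  obtain ⟨-, -, hL, -, -⟩ := hLip M μ H a b P.fm P.cmp
  unfold Gf
  have h1 := log_lip (hj φ) (hj ψ) (hL φ ψ j)
  have h2 := log_lip (P.ar φ) (P.ar ψ) (Ar_le φ ψ)
  linarith

theorem Gf_cont (hLip : StLip) (P : Pk μ i a b) (j : ℕ) (hj : ∀ φ, 0 < Ev a (b φ) j) :
    Continuous (Gf μ a b j) := by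
  have : LipschitzWith 2 (Gf μ a b j) := by
    apply LipschitzWith.of_le_add_mul
    intro φ ψ
    have := Gf_lip hLip P j hj φ ψ
    rw [dist_eq_norm]
    exact_mod_cast this
  exact this.continuous

theorem pos_ev (hLip : StLip) (P : Pk μ i a b) :
    ∀ᶠ j in atTop, ∀ φ, 0 < Ev a (b φ) j := by
  obtain ⟨-, -, -, -, hL⟩ := hLip M μ H a b P.fm P.cmp
  have h1 := P.wl 0
  have h2 : 0 < 4 * π / ∫ x, Real.exp ((0 : C(M, ℝ)) x) ∂μ :=
    div_pos (by positivity) (P.ar 0)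
  filter_upwards [h1.eventually (lt_mem_nhds h2)] with j hj
  rcases hL j with h3 | h3
  · rw [h3 0, zero_div] at hj
    exact absurd hj (lt_irrefl _)
  · exact h3

theorem osc (hLip : StLip) (P : Pk μ i a b) (K : Set C(M, ℝ)) (hK : IsCompact K) (ε : ℝ)
    (hε : 0 < ε) :
    ∀ᶠ j : ℕ in atTop, ∀ φ ∈ K, |Gf μ a b j φ - Real.log (4 * π * (j + 1))| ≤ ε := by
  have hpt : ∀ φ : C(M, ℝ), ∀ᶠ j : ℕ in atTop,
      |Gf μ a b j φ - Real.log (4 * π * (j + 1))| ≤ ε / 2 := by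
    intro φ
    have h1 := P.wl φ
    have h2 : 0 < 4 * π / ∫ x, Real.exp (φ x) ∂μ := div_pos (by positivity) (P.ar φ)
    have h3 := (Real.continuousAt_log h2.ne').tendsto.comp h1
    have h4 : ∀ᶠ j : ℕ in atTop, |Real.log (Ev a (b φ) j / (j + 1)) -
        Real.log (4 * π / ∫ x, Real.exp (φ x) ∂μ)| ≤ ε / 2 := by
      have := h3.eventually (Metric.closedBall_mem_nhds _ (half_pos hε))
      filter_upwards [this] with j hj
      simpa [Real.dist_eq] using hj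
    filter_upwards [h4, pos_ev hLip P] with j hj hpos
    have e1 : Real.log (Ev a (b φ) j / (j + 1)) = Real.log (Ev a (b φ) j) - Real.log ((j : ℝ) + 1) :=
      Real.log_div (hpos φ).ne' (by positivity)
    have e2 : Real.log (4 * π / ∫ x, Real.exp (φ x) ∂μ) = Real.log (4 * π) - Real.log (Ar μ φ) :=
      Real.log_div (by positivity) (P.ar φ).ne'
    have e3 : Real.log (4 * π * ((j : ℝ) + 1)) = Real.log (4 * π) + Real.log ((j : ℝ) + 1) :=
      Real.log_mul (by positivity) (by positivity)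
    rw [e1, e2] at hj
    rw [e3]
    unfold Gf
    convert hj using 2
    ring
  obtain ⟨t, ht, hcov⟩ := hK.elim_nhds_subcover (fun φ => Metric.ball φ (ε / 4))
    (fun φ _ => Metric.ball_mem_nhds φ (by positivity))
  have hall : ∀ᶠ j : ℕ in atTop, ∀ φ ∈ t, |Gf μ a b j φ - Real.log (4 * π * (j + 1))| ≤ ε / 2 :=
    (Filter.eventually_all_finset t).2 fun φ _ => hpt φ
  filter_upwards [hall, pos_ev hLip P] with j hj hpos φ hφ
  obtain ⟨ψ, hψt, hψ⟩ := mem_iUnion₂.1 (hcov hφ)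
  have hd : ‖φ - ψ‖ < ε / 4 := by rwa [Metric.mem_ball, dist_eq_norm] at hψ
  have h1 := Gf_lip hLip P j hpos φ ψ
  have h2 := Gf_lip hLip P j hpos ψ φ
  rw [norm_sub_rev] at h2
  have h3 := abs_le.1 (hj ψ hψt)
  rw [abs_le]
  constructor <;> linarith [h3.1, h3.2]

end forms

end Pool.Agent.Helper26K1.EM
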