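import Pool.Agent.Helper26K1.EM.Mix

/-!
# Simple eigenvalues
-/

set_option autoImplicit false

open Set Filter Topology MeasureTheory
open scoped Real
open Pool.Agent.Y262.QE Pool.Agent.Y264.QR Pool.Agent.Y378.QR

noncomputable section

namespace Pool.Agent.Helper26K1.EM

variable {M : Type} [MetricSpace M] [CompactSpace M] [MeasurableSpace M] [BorelSpace M]
  {μ : Measure M} [IsFiniteMeasure μ] {H : Type} [NormedAddCommGroup H] [InnerProductSpace ℝ H]
  {i : H →L[ℝ] Lp ℝ 2 μ} {a : H →L[ℝ] H →L[ℝ] ℝ} {b : C(M, ℝ) → H →L[ℝ] H →L[ℝ] ℝ}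

theorem i_zero (P : Pk μ i a b) (φ : C(M, ℝ)) (w : H) (hw : b φ w w = 0) : i w = 0 := by
  have h1 := P.cmp 0 φ w
  rw [hw, mul_zero, P.isB 0 w w] at h1
  have h2 : ∫ x, Real.exp ((0 : C(M, ℝ)) x) * (i w x * i w x) ∂μ = ‖i w‖ ^ 2 := by
    rw [← real_inner_self_eq_norm_sq, L2.inner_def]
    refine integral_congr_ae (Eventually.of_forall fun x => ?_)
    simp [sq]
  rw [h2] at h1
  have h3 : ‖i w‖ = 0 := by
    have := norm_nonneg (i w)
    nlinarith
  exact norm_eq_zero.1 h3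

theorem kap_simple (P : Pk μ i a b) (h φ : C(M, ℝ)) {e : ℕ → H} {E : ℕ → ℝ}
    (hE : Eg a (b φ) e E) (j : ℕ) (hs : ∀ l, l ≠ j → E l ≠ E j) (v : H)
    (hv : ∀ u, a v u = E j * b φ v u) (hv1 : b φ v v = 1) :
    kap μ i h φ v = kap μ i h φ (e j) := by
  have h1 : ∀ l, l ≠ j → b φ v (e l) = 0 := by
    intro l hl
    have e1 := hv (e l)
    rw [(P.fm φ).sa v (e l), hE.eig l v, (P.fm φ).sb (e l) v] at e1
    have e2 : (E l - E j) * b φ v (e l) = 0 := by linarith
    rcases mul_eq_zero.1 e2 with h | h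
    · exact absurd (sub_eq_zero.1 h) (hs l hl)
    · exact h
  have h2 : (b φ v (e j)) ^ 2 = 1 := by
    have e1 := hE.sum v
    have e2 : HasSum (fun l => (b φ v (e l)) ^ 2) ((b φ v (e j)) ^ 2) :=
      hasSum_single j fun l hl => by rw [h1 l hl]; ring
    rw [e2.unique e1, hv1]
  obtain ⟨c, hc⟩ : ∃ c, c = b φ v (e j) := ⟨_, rfl⟩
  rw [← hc] at h2
  have h3 : b φ (v - c • e j) (v - c • e j) = 0 := by
    have e3 := hE.orth j j
    rw [if_pos rfl] at e3
    simp only [map_sub, map_smul, _root_.sub_apply, _root_.smul_apply,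
      smul_eq_mul]
    rw [hv1, (P.fm φ).sb (e j) v, ← hc, e3]
    nlinarith
  have h4 := i_zero P φ _ h3
  have h5 : i v = c • i (e j) := by
    rw [map_sub, map_smul] at h4
    exact sub_eq_zero.1 h4
  unfold kap
  refine integral_congr_ae ?_
  rw [h5]
  filter_upwards [Lp.coeFn_smul c (i (e j))] with x hx
  rw [hx, Pi.smul_apply, smul_eq_mul, mul_pow, h2, one_mul]

end Pool.Agent.Helper26K1.EM
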