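import Pool.Agent.Y264.QR.All
import Pool.Agent.Helper26K1.EM.Simple

/-!
# Equidistributed mixtures in the eigenspaces of perturbed metrics
-/

set_option autoImplicit false

open Set Filter Topology MeasureTheory
open scoped Real
open Pool.Agent.Y262.QE Pool.Agent.Y264.QR Pool.Agent.Y378.QR

noncomputable section

namespace Pool.Agent.Helper26K1.EM

theorem pad {α : Type} (n N : ℕ) (h : n ≤ N) (v : Fin (n + 1) → α) (w : Fin (n + 1) → ℝ)
    (hw : ∀ k, 0 ≤ w k) :
    ∃ (v' : Fin (N + 1) → α) (w' : Fin (N + 1) → ℝ), (∀ k, ∃ k', v' k = v k') ∧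
      (∀ k, 0 ≤ w' k) ∧ ∀ g : α → ℝ, ∑ k, w' k * g (v' k) = ∑ k, w k * g (v k) := by
  classical
  refine ⟨fun k => if h : k.1 < n + 1 then v ⟨k.1, h⟩ else v 0,
    fun k => if h : k.1 < n + 1 then w ⟨k.1, h⟩ else 0, fun k => ?_, fun k => ?_, fun g => ?_⟩
  · dsimp only
    split_ifs with h1
    · exact ⟨_, rfl⟩
    · exact ⟨_, rfl⟩
  · dsimp only
    split_ifs with h1
    · exact hw _
    · exact le_rfl
  · have hle : n + 1 ≤ N + 1 := by omega
    symm
    calc ∑ k, w k * g (v k) = ∑ k : Fin (n + 1),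
          ((if h : (Fin.castLEEmb hle k).1 < n + 1 then w ⟨(Fin.castLEEmb hle k).1, h⟩ else 0) *
            g (if h : (Fin.castLEEmb hle k).1 < n + 1 then v ⟨(Fin.castLEEmb hle k).1, h⟩
              else v 0)) := by
          refine Finset.sum_congr rfl fun k _ => ?_
          have hk : (Fin.castLEEmb hle k).1 < n + 1 := k.2
          rw [dif_pos hk, dif_pos hk]
          rfl
      _ = ∑ k ∈ Finset.univ.map (Fin.castLEEmb hle),
          ((if h : k.1 < n + 1 then w ⟨k.1, h⟩ else 0) *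
            g (if h : k.1 < n + 1 then v ⟨k.1, h⟩ else v 0)) := by
          rw [Finset.sum_map]
      _ = _ := by
          apply Finset.sum_subset (Finset.subset_univ _)
          intro k _ hk
          rw [dif_neg, zero_mul]
          intro hlt
          exact hk (Finset.mem_map.2 ⟨⟨k.1, hlt⟩, Finset.mem_univ _, rfl⟩)

/-- the masses are bounded by the sup norm -/
theorem kap_le {M : Type} [MetricSpace M] [CompactSpace M] [MeasurableSpace M] [BorelSpace M]
    {μ : Measure M} [IsFiniteMeasure μ] {H : Type} [NormedAddCommGroup H] [InnerProductSpace ℝ H]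
    {i : H →L[ℝ] Lp ℝ 2 μ} {a : H →L[ℝ] H →L[ℝ] ℝ} {b : C(M, ℝ) → H →L[ℝ] H →L[ℝ] ℝ}
    (P : Pk μ i a b) (h φ : C(M, ℝ)) (v : H) (hv : b φ v v = 1) : |kap μ i h φ v| ≤ ‖h‖ := by
  obtain ⟨k, -, k2, -⟩ := P.k h
  have := (k2 φ v).2
  rwa [(k2 φ v).1, hv, mul_one] at this

theorem and_of_first {p q : Prop} (h : p → q) (hp : p) : p ∧ q := ⟨hp, h hp⟩

theorem main (M : Type) [MetricSpace M] [CompactSpace M] [MeasurableSpace M] [BorelSpace M]
    [Nonempty M] (μ : Measure M) (D : Data M) (hD : D.IsSurf μ)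
    (F : Type) [AddCommGroup F] [Module ℝ F] [TopologicalSpace F] [ContinuousAdd F]
    [ContinuousSMul ℝ F] [FirstCountableTopology F]
    (ι : F →L[ℝ] C(M, ℝ)) (hι : DenseRange ι) (N : ℕ → ℕ) (hN : Tendsto N atTop atTop) :
    ∃ φ : ℕ → F, Tendsto φ atTop (𝓝 0) ∧
      ∀ (u : ℕ → ℕ → M → ℝ) (lam : ℕ → ℕ → ℝ),
      (∀ j, EigBasis (D.conf fun x => Real.exp (ι (φ j) x)) (wm μ fun x => Real.exp (ι (φ j) x))
        (u j) (lam j)) →
      ∃ (v : ∀ j, Fin (N j + 1) → M → ℝ) (p : ∀ j, Fin (N j + 1) → ℝ),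
      (∀ j k, (D.conf fun x => Real.exp (ι (φ j) x)).IsEig (wm μ fun x => Real.exp (ι (φ j) x))
          (lam j j) (v j k) ∧
        ∫ x, (v j k x) ^ 2 ∂(wm μ fun x => Real.exp (ι (φ j) x)) = 1 ∧ 0 ≤ p j k) ∧
      (∀ j, ∑ k, p j k = 1) ∧
      ∀ f : C(M, ℝ), Tendsto (fun j => ∑ k, p j k *
        ∫ x, f x * (v j k x) ^ 2 ∂(wm μ fun x => Real.exp (ι (φ j) x))) atTop
          (𝓝 ((∫ x, f x ∂μ) / μ.real univ)) ∧
        Tendsto (fun j => ∫ x, f x * (u j j x) ^ 2 ∂(wm μ fun x => Real.exp (ι (φ j) x)))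
          (atTop ⊓ 𝓟 {j | ∀ l, l ≠ j → lam j l ≠ lam j j})
          (𝓝 ((∫ x, f x ∂μ) / μ.real univ)) := by
  obtain ⟨hf, -⟩ := tFin M μ D hD
  haveI := hf
  obtain ⟨i, a, hSf, hi, ha⟩ := tPackF M μ D hD inferInstance
  obtain ⟨b, hB, hF, hA, hcmp, hk⟩ := tFm M μ (HF D μ) i a hSf
  have hW := tWl M μ D hD inferInstance i a b hSf hi ha hB
  have P : Pk μ i a b := ⟨hF, hB, hA, hcmp, hk, hW⟩
  have hMM : StMM := Pool.Agent.Y592.QE.mm
  have hDer : StDer := Pool.Agent.Y726.QE.der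
  -- a dense sequence
  obtain ⟨g, hg⟩ : ∃ g : ℕ → F, DenseRange fun l => ι (g l) := by
    have hne : Nonempty (Set.range ι) := ⟨⟨ι 0, 0, rfl⟩⟩
    have hd := TopologicalSpace.denseRange_denseSeq (Set.range ι)
    choose g hg using fun l : ℕ => (TopologicalSpace.denseSeq (Set.range ι) l).2
    refine ⟨g, ?_⟩
    have h1 : DenseRange (fun x : Set.range ι => (x : C(M, ℝ))) := by
      rw [DenseRange, Subtype.range_coe]
      exact hι
    have h2 := h1.comp hd continuous_subtype_val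
    have he : (fun l => ι (g l)) =
        (fun x : Set.range ι => (x : C(M, ℝ))) ∘ TopologicalSpace.denseSeq (Set.range ι) :=
      funext fun l => hg l
    rw [he]
    exact h2
  set f : ∀ n, Fin n → C(M, ℝ) := fun n l => ι (g l) with hfdef
  have hSm : ∀ n (c : EuclideanSpace ℝ (Fin n)), Sm (f n) c = ι (∑ l, c l • g l) := by
    intro n c
    rw [map_sum]
    exact Finset.sum_congr rfl fun l _ => by rw [map_smul]
  obtain ⟨U, hU⟩ := (𝓝 (0 : F)).exists_antitone_basis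
  have hr : ∀ n, ∃ r : ℝ, 0 < r ∧ ∀ c : EuclideanSpace ℝ (Fin n), ‖c‖ ≤ r →
      ∑ l : Fin n, c l • g l ∈ U n := by
    intro n
    have hc : Continuous fun c : EuclideanSpace ℝ (Fin n) => ∑ l : Fin n, c l • g l := by
      refine continuous_finsetSum _ fun l _ => ?_
      have h1 : Continuous fun c : EuclideanSpace ℝ (Fin n) => c l := by fun_prop
      exact h1.smul continuous_const
    have h1 : Tendsto (fun c : EuclideanSpace ℝ (Fin n) => ∑ l : Fin n, c l • g l)
        (𝓝 0) (𝓝 0) := by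
      have h0 := hc.tendsto 0
      simpa using h0
    have h2 := h1.eventually (hU.1.mem_of_mem (i := n) trivial)
    obtain ⟨ε, hε, hb⟩ := Metric.eventually_nhds_iff_ball.1 h2
    refine ⟨ε / 2, half_pos hε, fun c hc => hb c ?_⟩
    rw [mem_ball_zero_iff]
    linarith
  choose r hr0 hr1 using hr
  -- the property
  let Q : ℕ → ℕ → Prop := fun n j => ∃ c : EuclideanSpace ℝ (Fin n),
    (∑ l : Fin n, c l • g l) ∈ U n ∧ ∀ (e : ℕ → HF D μ) (E : ℕ → ℝ),
      Eg a (b (Sm (f n) c)) e E → ∃ (v : Fin (n + 1) → HF D μ) (w : Fin (n + 1) → ℝ),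
        (∀ k u, a (v k) u = E j * b (Sm (f n) c) (v k) u) ∧
        (∀ k, b (Sm (f n) c) (v k) (v k) = 1) ∧ (∀ k, 0 ≤ w k) ∧ ∑ k, w k = 1 ∧
        ∀ l, |∑ k, w k * kap μ i (f n l) (Sm (f n) c) (v k) - avg μ (f n l) (Sm (f n) c)| ≤
          1 / ((n : ℝ) + 1)
  have hQ0 : ∀ j, Q 0 j := by
    intro j
    refine ⟨0, ?_, fun e E hE => ⟨fun _ => e j, fun _ => 1, fun _ u => hE.eig j u, fun _ => ?_,
      fun _ => zero_le_one, by simp, fun l => l.elim0⟩⟩
    · rw [Finset.univ_eq_empty, Finset.sum_empty]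
      exact mem_of_mem_nhds (hU.1.mem_of_mem (i := 0) trivial)
    · have := hE.orth j j
      rwa [if_pos rfl] at this
  have hQ : ∀ n, ∀ᶠ j in atTop, Q n j := by
    intro n
    filter_upwards [mix tLip hMM hDer P n (f n) (r n) (1 / ((n : ℝ) + 1)) (hr0 n)
      (by positivity)] with j hj
    obtain ⟨c, hc, h⟩ := hj
    exact ⟨c, hr1 n c hc, h⟩
  obtain ⟨n, hn, hnN, hQn⟩ := slow_choice Q hQ0 hQ N hN
  choose c hcU hc using hQn
  set φ : ℕ → F := fun j => ∑ l : Fin (n j), c j l • g l with hφ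
  have hιφ : ∀ j, Sm (f (n j)) (c j) = ι (φ j) := fun j => hSm (n j) (c j)
  have hφ0 : Tendsto φ atTop (𝓝 0) := by
    rw [hU.1.tendsto_right_iff]
    intro k _
    filter_upwards [hn.eventually_ge_atTop k] with j hj
    exact hU.2 hj (hcU j)
  refine ⟨φ, hφ0, ?_⟩
  intro u lam hu
  choose e he1 he2 using fun j => tBr M μ D hD i a b hSf hi ha hB hF (ι (φ j)) (u j) (lam j) (hu j)
  have hcj : ∀ j, ∃ (v : Fin (n j + 1) → HF D μ) (w : Fin (n j + 1) → ℝ),
        (∀ k u, a (v k) u = lam j j * b (ι (φ j)) (v k) u) ∧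
        (∀ k, b (ι (φ j)) (v k) (v k) = 1) ∧ (∀ k, 0 ≤ w k) ∧ ∑ k, w k = 1 ∧
        ∀ l : Fin (n j), |∑ k, w k * kap μ i (ι (g l)) (ι (φ j)) (v k) -
          avg μ (ι (g l)) (ι (φ j))| ≤ 1 / ((n j : ℝ) + 1) := by
    intro j
    have h1 := hc j (e j) (lam j) (by rw [hιφ]; exact he2 j)
    rw [hιφ] at h1
    exact h1
  choose v0 w0 hv1 hv2 hw1 hw2 hvw using hcj
  choose v w hv hw hsum using fun j => pad (n j) (N j) (hnN j) (v0 j) (w0 j) (hw1 j)
  have hvH : ∀ j k, (∀ u, a (v j k) u = lam j j * b (ι (φ j)) (v j k) u) ∧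
      b (ι (φ j)) (v j k) (v j k) = 1 := by
    intro j k
    obtain ⟨k', hk'⟩ := hv j k
    rw [hk']
    exact ⟨hv1 j k', hv2 j k'⟩
  have hm : ∀ j, Measurable fun x => Real.exp (ι (φ j) x) := fun j =>
    (Real.continuous_exp.comp (ι (φ j)).continuous).measurable
  have h0 : ∀ j x, 0 ≤ Real.exp (ι (φ j) x) := fun j x => (Real.exp_pos _).le
  have hkap : ∀ (h : C(M, ℝ)) j k, ∫ x, h x * (((v j k).1.fst : M → ℝ) x) ^ 2
      ∂(wm μ fun x => Real.exp (ι (φ j) x)) = kap μ i h (ι (φ j)) (v j k) := by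
    intro h j k
    refine (kap_eq μ i h (ι (φ j)) (v j k) _ ?_).symm
    rw [hi]
  refine ⟨fun j k => ((v j k).1.fst : M → ℝ), w, fun j k => ⟨?_, ?_, hw j k⟩,
    fun j => ?_, fun h => ?_⟩
  · refine eigF tGr tFin tConf tDenF M μ D hD _ (Real.continuous_exp.comp (ι (φ j)).continuous)
      (fun x => Real.exp_pos _) (lam j j) (v j k).1 (v j k).2 fun v' hv' => ?_
    have h1 := (hvH j k).1 ⟨v', hv'⟩
    rw [ha, hB, hi, hi] at h1
    exact h1
  · rw [integral_wm μ _ (hm j) (h0 j), ← (hvH j k).2, hB, hi]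
    refine integral_congr_ae (Eventually.of_forall fun x => ?_)
    simp only
    rw [sq]
  · have := hsum j (fun _ => 1)
    simp only [mul_one] at this
    rw [this, hw2]
  · -- the limit
    refine and_of_first (fun hT => ?_) ?_
    · refine (hT.mono_left inf_le_left).congr' ?_
      filter_upwards [mem_inf_of_right (mem_principal_self _)] with j hj
      have e1 : ∀ k, ∫ x, h x * (((v j k).1.fst : M → ℝ) x) ^ 2
          ∂(wm μ fun x => Real.exp (ι (φ j) x)) =
          ∫ x, h x * (u j j x) ^ 2 ∂(wm μ fun x => Real.exp (ι (φ j) x)) := by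
        intro k
        rw [hkap, kap_simple P h (ι (φ j)) (he2 j) j hj (v j k) (hvH j k).1 (hvH j k).2]
        exact kap_eq μ i h (ι (φ j)) (e j j) _ (he1 j j)
      simp only [e1]
      have := hsum j (fun _ => 1)
      simp only [mul_one] at this
      rw [← Finset.sum_mul, this, hw2, one_mul]
    simp only [hkap]
    have hpadk : ∀ j (h : C(M, ℝ)), ∑ k, w j k * kap μ i h (ι (φ j)) (v j k) =
        ∑ k, w0 j k * kap μ i h (ι (φ j)) (v0 j k) := fun j h =>
      hsum j fun y => kap μ i h (ι (φ j)) y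
    simp only [hpadk]
    have havg : Tendsto (fun j => avg μ h (ι (φ j))) atTop (𝓝 (avg μ h 0)) := by
      have hcm : Continuous fun ψ : C(M, ℝ) => avg μ h ψ := by
        letI : MeasurableSpace C(M, ℝ) := borel _
        haveI : BorelSpace C(M, ℝ) := ⟨rfl⟩
        exact (Pool.Agent.Y689.QR.cm M μ).2.1 h
      have h1 : Tendsto (fun j => ι (φ j)) atTop (𝓝 (ι 0)) := (ι.continuous.tendsto 0).comp hφ0
      rw [map_zero] at h1
      exact (hcm.tendsto 0).comp h1
    have havg0 : avg μ h 0 = (∫ x, h x ∂μ) / μ.real univ := by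
      unfold avg
      simp
    rw [← havg0]
    have hdiff : Tendsto (fun j => ∑ k, w0 j k * kap μ i h (ι (φ j)) (v0 j k) -
        avg μ h (ι (φ j))) atTop (𝓝 0) := by
      rw [Metric.tendsto_atTop']
      intro ε hε
      obtain ⟨l, hl⟩ := hg.exists_dist_lt h (show 0 < ε / 4 by positivity)
      have hl' : ‖h - ι (g l)‖ < ε / 4 := by rwa [dist_eq_norm] at hl
      have h1 : ∀ᶠ j in atTop, l < n j ∧ 1 / ((n j : ℝ) + 1) < ε / 4 := by
        have h2 : Tendsto (fun j => 1 / ((n j : ℝ) + 1)) atTop (𝓝 0) :=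
          tendsto_one_div_add_atTop_nhds_zero_nat.comp hn
        exact (hn.eventually_gt_atTop l).and (h2.eventually (gt_mem_nhds (by positivity)))
      obtain ⟨J, hJ⟩ := eventually_atTop.1 h1
      refine ⟨J, fun j hj => ?_⟩
      obtain ⟨hln, hnε⟩ := hJ j hj.le
      rw [dist_zero_right, Real.norm_eq_abs]
      have h2 := hvw j ⟨l, hln⟩
      have e1 : ∀ k, kap μ i h (ι (φ j)) (v0 j k) = kap μ i (ι (g l)) (ι (φ j)) (v0 j k) +
          kap μ i (h - ι (g l)) (ι (φ j)) (v0 j k) := fun k => by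
        rw [← kap_add]; congr 1; abel
      have e2 : avg μ h (ι (φ j)) = avg μ (ι (g l)) (ι (φ j)) + avg μ (h - ι (g l)) (ι (φ j)) := by
        rw [← avg_add]; congr 1; abel
      have e3 : |∑ k, w0 j k * kap μ i (h - ι (g l)) (ι (φ j)) (v0 j k)| ≤ ε / 4 := by
        refine (Finset.abs_sum_le_sum_abs _ _).trans ?_
        calc ∑ k, |w0 j k * kap μ i (h - ι (g l)) (ι (φ j)) (v0 j k)|
            ≤ ∑ k, w0 j k * (ε / 4) := by
              refine Finset.sum_le_sum fun k _ => ?_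
              rw [abs_mul, abs_of_nonneg (hw1 j k)]
              exact mul_le_mul_of_nonneg_left ((kap_le P _ _ _ (hv2 j k)).trans hl'.le) (hw1 j k)
          _ = ε / 4 := by rw [← Finset.sum_mul, hw2, one_mul]
      have e4 := (avg_abs_le P.ar (h - ι (g l)) (ι (φ j))).trans hl'.le
      have e5 : ∑ k, w0 j k * kap μ i h (ι (φ j)) (v0 j k) - avg μ h (ι (φ j)) =
          (∑ k, w0 j k * kap μ i (ι (g l)) (ι (φ j)) (v0 j k) - avg μ (ι (g l)) (ι (φ j))) +
          (∑ k, w0 j k * kap μ i (h - ι (g l)) (ι (φ j)) (v0 j k)) -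
          avg μ (h - ι (g l)) (ι (φ j)) := by
        rw [e2]
        simp only [e1, mul_add, Finset.sum_add_distrib]
        ring
      rw [e5]
      have a1 := abs_le.1 (h2.trans hnε.le)
      have a2 := abs_le.1 e3
      have a3 := abs_le.1 e4
      rw [abs_lt]
      constructor <;> linarith [a1.1, a1.2, a2.1, a2.2, a3.1, a3.2]
    simpa using hdiff.add havg

end Pool.Agent.Helper26K1.EM
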