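import Pool.Agent.Helper26K1.EM.Abs

/-!
# Equidistributed mixtures for finitely many test functions
-/

set_option autoImplicit false

open Set Filter Topology MeasureTheory
open scoped Real
open Pool.Agent.Y262.QE Pool.Agent.Y264.QR Pool.Agent.Y378.QR

noncomputable section

namespace Pool.Agent.Helper26K1.EM

variable {M : Type} [MetricSpace M] [CompactSpace M] [MeasurableSpace M] [BorelSpace M]
  {μ : Measure M} [IsFiniteMeasure μ] {H : Type} [NormedAddCommGroup H] [InnerProductSpace ℝ H]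
  {i : H →L[ℝ] Lp ℝ 2 μ}
  {a : H →L[ℝ] H →L[ℝ] ℝ} {b : C(M, ℝ) → H →L[ℝ] H →L[ℝ] ℝ}

/-- linear combinations of the test functions -/
def Sm {m : ℕ} (f : Fin m → C(M, ℝ)) (c : EuclideanSpace ℝ (Fin m)) : C(M, ℝ) := ∑ l, c l • f l

theorem Sm_cont {m : ℕ} (f : Fin m → C(M, ℝ)) : Continuous (Sm f) := by
  unfold Sm
  refine continuous_finsetSum _ fun l _ => ?_
  have h1 : Continuous fun c : EuclideanSpace ℝ (Fin m) => c l := by fun_prop
  exact h1.smul continuous_const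

theorem Sm_add {m : ℕ} (f : Fin m → C(M, ℝ)) (c d : EuclideanSpace ℝ (Fin m)) (τ : ℝ) :
    Sm f (c + τ • d) = Sm f c + τ • Sm f d := by
  unfold Sm
  rw [Finset.smul_sum, ← Finset.sum_add_distrib]
  refine Finset.sum_congr rfl fun l _ => ?_
  rw [PiLp.add_apply, PiLp.smul_apply, add_smul, smul_eq_mul, mul_smul]

theorem kap_sum {m : ℕ} (f : Fin m → C(M, ℝ)) (φ : C(M, ℝ)) (v : H) (s : Finset (Fin m))
    (c : Fin m → ℝ) :
    kap μ i (∑ l ∈ s, c l • f l) φ v = ∑ l ∈ s, c l * kap μ i (f l) φ v := by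
  classical
  induction s using Finset.induction_on with
  | empty => simp [kap_zero]
  | insert l s hl ih => rw [Finset.sum_insert hl, Finset.sum_insert hl, kap_add, kap_smul, ih]

theorem avg_sum {m : ℕ} (f : Fin m → C(M, ℝ)) (φ : C(M, ℝ)) (s : Finset (Fin m))
    (c : Fin m → ℝ) :
    avg μ (∑ l ∈ s, c l • f l) φ = ∑ l ∈ s, c l * avg μ (f l) φ := by
  classical
  induction s using Finset.induction_on with
  | empty => simp [avg_zero]
  | insert l s hl ih => rw [Finset.sum_insert hl, Finset.sum_insert hl, avg_add, avg_smul, ih]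

theorem kap_scale (P : Pk μ i a b) (h φ : C(M, ℝ)) (v : H) (t : ℝ) :
    kap μ i h φ (t • v) = t ^ 2 * kap μ i h φ v := by
  obtain ⟨k, -, k2, -⟩ := P.k h
  rw [← (k2 φ (t • v)).1, ← (k2 φ v).1, map_smul, map_smul, ContinuousLinearMap.smul_apply,
    smul_eq_mul, smul_eq_mul]
  ring

theorem inner_coord {m : ℕ} (c d : EuclideanSpace ℝ (Fin m)) :
    inner ℝ c d = ∑ l, c l * d l := by
  rw [PiLp.inner_apply]
  refine Finset.sum_congr rfl fun l _ => ?_
  rw [real_inner_eq_re_inner, RCLike.inner_apply]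
  simp [mul_comm]

/-- the vectors of the masses of the test functions for the unit vectors in an eigenspace -/
def Ms (μ : Measure M) (i : H →L[ℝ] Lp ℝ 2 μ) (a : H →L[ℝ] H →L[ℝ] ℝ)
    (b : C(M, ℝ) → H →L[ℝ] H →L[ℝ] ℝ) {m : ℕ} (f : Fin m → C(M, ℝ)) (φ : C(M, ℝ)) (lam : ℝ) :
    Set (EuclideanSpace ℝ (Fin m)) :=
  {q | ∃ v : H, (∀ w, a v w = lam * b φ v w) ∧ b φ v v = 1 ∧ ∀ l, q l = kap μ i (f l) φ v}

theorem mix (hLip : StLip) (hMM : StMM) (hDer : StDer) (P : Pk μ i a b) (m : ℕ)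
    (f : Fin m → C(M, ℝ)) (r δ : ℝ) (hr : 0 < r) (hδ : 0 < δ) :
    ∀ᶠ j in atTop, ∃ c : EuclideanSpace ℝ (Fin m), ‖c‖ ≤ r ∧ ∀ (e : ℕ → H) (E : ℕ → ℝ),
      Eg a (b (Sm f c)) e E → ∃ (v : Fin (m + 1) → H) (w : Fin (m + 1) → ℝ),
        (∀ k u, a (v k) u = E j * b (Sm f c) (v k) u) ∧ (∀ k, b (Sm f c) (v k) (v k) = 1) ∧
        (∀ k, 0 ≤ w k) ∧ ∑ k, w k = 1 ∧
        ∀ l, |∑ k, w k * kap μ i (f l) (Sm f c) (v k) - avg μ (f l) (Sm f c)| ≤ δ := by
  set κ : ℝ := δ / (4 * r) with hκ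
  have hκ0 : 0 < κ := by positivity
  have hκr : 2 * κ * r = δ / 2 := by rw [hκ]; field_simp; ring
  have hKc : IsCompact (Sm f '' Metric.closedBall 0 r) :=
    (isCompact_closedBall _ _).image (Sm_cont f)
  filter_upwards [osc hLip P _ hKc (κ * r ^ 2 / 4) (by positivity), pos_ev hLip P] with j hosc hj
  obtain ⟨c, hcr, hc⟩ := almost_critical (fun c => Gf μ a b j (Sm f c))
    ((Gf_cont hLip P j hj).comp (Sm_cont f)) (Real.log (4 * π * (j + 1))) r κ hr hκ0
    (fun c hc => hosc _ ⟨c, by simpa using hc, rfl⟩)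
  refine ⟨c, hcr.le, fun e E hE => ?_⟩
  set φ : C(M, ℝ) := Sm f c with hφ
  set X := Ms μ i a b f φ (E j) with hX
  have hXne : X.Nonempty := by
    refine ⟨WithLp.toLp 2 fun l => kap μ i (f l) φ (e j), e j, hE.eig j, ?_, fun l => rfl⟩
    have := hE.orth j j
    rwa [if_pos rfl] at this
  set p : EuclideanSpace ℝ (Fin m) := WithLp.toLp 2 fun l => avg μ (f l) φ with hp
  by_cases hcl : ∃ q ∈ convexHull ℝ X, ‖q - p‖ ≤ δ
  · obtain ⟨q, hq, hqp⟩ := hcl
    obtain ⟨z, w, hz, hw, hw1, hwz⟩ := caratheodory X q hq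
    choose v hv1 hv2 hv3 using hz
    refine ⟨v, w, hv1, hv2, hw, hw1, fun l => ?_⟩
    have e1 : ∑ k, w k * kap μ i (f l) φ (v k) - avg μ (f l) φ = (q - p) l := by
      rw [PiLp.sub_apply, ← hwz, hp]
      simp only [WithLp.ofLp_sum, WithLp.ofLp_smul, Finset.sum_apply, Pi.smul_apply, smul_eq_mul]
      congr 1
      exact Finset.sum_congr rfl fun k _ => by rw [hv3 k l]
    rw [e1, ← Real.norm_eq_abs]
    exact (PiLp.norm_apply_le _ _).trans hqp
  · exfalso
    push Not at hcl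
    obtain ⟨d, hd0, hd⟩ := separate X hXne p δ hδ hcl
    set h : C(M, ℝ) := Sm f d with hh
    have havg : avg μ h φ = inner ℝ d p := by
      rw [hh, Sm, avg_sum, inner_coord]
    have hkp : ∀ v, kap μ i h φ v = ∑ l, d l * kap μ i (f l) φ v := fun v => by
      rw [hh, Sm, kap_sum]
    have hav : |avg μ h φ| ≤ ‖h‖ := avg_abs_le P.ar h φ
    -- the lower bound on the eigenspace
    have hlow : ∀ v, (∀ w, a v w = E j * b φ v w) →
        (avg μ h φ + δ * ‖d‖) * b φ v v ≤ kap μ i h φ v := by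
      intro v hv
      have hb0 : 0 ≤ b φ v v := (P.fm φ).nb v
      rcases hb0.eq_or_lt with hb | hb
      · obtain ⟨k, -, k2, -⟩ := P.k h
        have h1 := (k2 φ v).2
        rw [← hb, mul_zero] at h1
        have h2 := abs_nonpos_iff.1 h1
        rw [← hb, mul_zero, ← (k2 φ v).1, h2]
      · set t : ℝ := (Real.sqrt (b φ v v))⁻¹ with ht
        have ht2 : t ^ 2 * b φ v v = 1 := by
          rw [ht, inv_pow, Real.sq_sqrt hb0, inv_mul_cancel₀ hb.ne']
        have hmem : (WithLp.toLp 2 fun l => kap μ i (f l) φ (t • v) :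
            EuclideanSpace ℝ (Fin m)) ∈ X := by
          refine ⟨t • v, fun w => ?_, ?_, fun l => rfl⟩
          · rw [map_smul, map_smul, ContinuousLinearMap.smul_apply,
              ContinuousLinearMap.smul_apply, smul_eq_mul, smul_eq_mul, hv w]
            ring
          · rw [map_smul, map_smul, ContinuousLinearMap.smul_apply, smul_eq_mul, smul_eq_mul,
              ← mul_assoc, ← sq, ht2]
        have h1 := hd _ hmem
        have h2 : inner ℝ d (WithLp.toLp 2 fun l => kap μ i (f l) φ (t • v) :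
            EuclideanSpace ℝ (Fin m)) = t ^ 2 * kap μ i h φ v := by
          rw [← kap_scale P, hkp, inner_coord]
        rw [h2, ← havg] at h1
        have h3 := mul_le_mul_of_nonneg_right h1 hb0
        calc (avg μ h φ + δ * ‖d‖) * b φ v v ≤ t ^ 2 * kap μ i h φ v * b φ v v := h3
          _ = (t ^ 2 * b φ v v) * kap μ i h φ v := by ring
          _ = kap μ i h φ v := by rw [ht2, one_mul]
    obtain ⟨τ₁, hτ₁, hD⟩ := log_der hLip hMM hDer P j hj φ h e E hE (avg μ h φ + δ * ‖d‖)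
      (avg μ h φ + 3 / 4 * (δ * ‖d‖)) (by nlinarith [mul_pos hδ hd0])
      (by linarith [(abs_le.1 hav).1, mul_pos hδ hd0]) hlow
    obtain ⟨τ₂, hτ₂, hC⟩ := hc d
    set Q : ℝ := ‖h‖ ^ 2 + κ * ‖d‖ ^ 2 + 1 with hQ
    have hQ0 : 0 < Q := by positivity
    have hpd : 0 < δ * ‖d‖ := mul_pos hδ hd0
    obtain ⟨τ, hτ0, hτ⟩ : ∃ τ : ℝ, 0 < τ ∧ τ < min (min τ₁ τ₂) (min (1 / (‖h‖ + 1))
        (δ * ‖d‖ / (4 * Q))) := by
      refine exists_between ?_
      exact lt_min (lt_min hτ₁ hτ₂) (lt_min (by positivity) (by positivity))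
    have t1 : τ < τ₁ := hτ.trans_le ((min_le_left _ _).trans (min_le_left _ _))
    have t2 : τ < τ₂ := hτ.trans_le ((min_le_left _ _).trans (min_le_right _ _))
    have t3 : τ < 1 / (‖h‖ + 1) := hτ.trans_le ((min_le_right _ _).trans (min_le_left _ _))
    have t4 : τ < δ * ‖d‖ / (4 * Q) := hτ.trans_le ((min_le_right _ _).trans (min_le_right _ _))
    have t3' : τ * ‖h‖ ≤ 1 := by
      rw [lt_div_iff₀ (by positivity)] at t3
      nlinarith [norm_nonneg h]
    rw [lt_div_iff₀ (by positivity)] at t4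
    have h1 := hD τ hτ0 t1
    have h2 := hC τ hτ0 t2
    have h3 := log_area P.ar φ h τ hτ0.le t3'
    rw [Sm_add, ← hφ, ← hh, hκr] at h2
    unfold Gf at h2
    have h4 : τ * (τ * Q) < τ * (δ * ‖d‖ / 4) := mul_lt_mul_of_pos_left (by linarith) hτ0
    have h5 : τ ^ 2 * ‖h‖ ^ 2 + τ ^ 2 * (κ * ‖d‖ ^ 2) ≤ τ * (τ * Q) := by
      rw [hQ]
      nlinarith [sq_nonneg τ]
    nlinarith

end Pool.Agent.Helper26K1.EM
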